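import Pool.Agent.H69.SFA.Pc

/-!
# [H98 SFA Dov] THEOREM SF, clause (4), chapter K3: the algorithm whose only input is the polynomial

`AlgF H`: there is a partial recursive function of the code of `F` alone, every value of which is a bound for all integer
zeros of `F`, and which is defined if `F` is absolutely irreducible, satisfies `H`, has genus at most `g` and satisfies
`AtInf` for `X^r - a X^(r-1) - 1`, for some `r` odd, `r ≥ 3`, `a ≥ 2^r` and `g` with `600 (n + g) ≤ (r-1)^2`.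
`dov`: it follows from the certificates by a search over `r, a, g` and the certificates together. `P0` stands for the
certificates which do not depend on the polynomial `q` (type 0, and type R if it is used).
-/

namespace Pool.Agent.H98.SFA

open Pool.Agent.H8.Siegel Pool.Agent.H69.AL Pool.Agent.H98.AL Pool.Agent.H85.SA
open Pool.Agent.H69.SFA

/-! The certificates are monotone in the size. -/

theorem sz_mono {Z Z' : ℕ} (h : Z ≤ Z') {s : Polynomial ℤ} (hs : Sz Z s) : Sz Z' s := by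
  refine ⟨hs.1.trans h, ?_⟩
  have h1 : ∑ i ∈ Finset.range (Z' + 1), |s.coeff i| = ∑ i ∈ Finset.range (Z + 1), |s.coeff i| := by
    symm
    refine Finset.sum_subset (Finset.range_subset_range.2 (by omega)) fun i _ hi => ?_
    have h2 : Z + 1 ≤ i := not_lt.1 fun h => hi (Finset.mem_range.2 h)
    rw [Polynomial.coeff_eq_zero_of_natDegree_lt (hs.1.trans_lt (by omega)), abs_zero]
  rw [h1]
  have h3 : (Z : ℤ) ≤ Z' := by exact_mod_cast h
  exact hs.2.trans h3

theorem bd_mono {G D A : P2} {Z Z' : ℕ} (h : Z ≤ Z') (hB : Bd G Z D A) : Bd G Z' D A := by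
  obtain ⟨N, s, Q, h1, h2, h3, h4, h5⟩ := hB
  exact ⟨N, s, Q, h1, h2.trans h, h3, fun j hj => ⟨(h4 j hj).1, sz_mono h (h4 j hj).2⟩, h5⟩

theorem ig_mono {G D A : P2} {Z Z' : ℕ} (h : Z ≤ Z') (hB : Ig G Z D A) : Ig G Z' D A := by
  obtain ⟨N, e, s, Q, h1, h2, h3, h4, h5⟩ := hB
  exact ⟨N, e, s, Q, h1, h2, h3.trans h, h4, h5⟩

theorem cer_mono {F : P2} {q : Polynomial ℤ} {κ Z Z' : ℕ} {d : Dt} (h : Z ≤ Z') (hC : Cer F q κ Z d) :
    Cer F q κ Z' d := by
  have h3 : (Z : ℤ) ≤ Z' := by exact_mod_cast h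
  exact { Z2 := hC.Z2.trans h
          cZ := hC.cZ.trans h
          lc := hC.lc
          dZ := hC.dZ.trans h
          FZ := fun t => (hC.FZ t).trans h3
          e1 := hC.e1
          eZ := hC.eZ.trans h
          s1 := hC.s1
          sZ := hC.sZ.trans h
          W1 := hC.W1
          WZ := hC.WZ.trans h
          mZ := hC.mZ.trans h
          lZ := hC.lZ.trans h
          D0 := hC.D0
          DZ := sz_mono h hC.DZ
          qZ := sz_mono h hC.qZ
          eq1 := hC.eq1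
          bpi := bd_mono h hC.bpi
          bv := bd_mono h hC.bv
          bt := bd_mono h hC.bt
          bg := bd_mono h hC.bg
          beta := bd_mono h hC.beta
          eq2 := hC.eq2
          bz := fun i hi => bd_mono h (hC.bz i hi)
          brho := fun k hk => bd_mono h (hC.brho k hk)
          blb := fun k hk i hi u hu => ⟨(hC.blb k hk i hi u hu).1, sz_mono h (hC.blb k hk i hi u hu).2⟩
          eq4 := hC.eq4
          ig := fun k hk => ig_mono h (hC.ig k hk)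
          l0 := hC.l0
          eq5 := hC.eq5
          n0 := hC.n0
          UZ := sz_mono h hC.UZ
          VZ := sz_mono h hC.VZ
          eq6 := hC.eq6
          jets := hC.jets
          num := hC.num }

/-! The search. -/

/-- the polynomial `X^r - a X^(r-1) - 1` -/
noncomputable def qra (r a : ℕ) : Polynomial ℤ :=
  Polynomial.X ^ r - Polynomial.C (a : ℤ) * Polynomial.X ^ (r - 1) - 1

/-- the algorithm with input `F` alone -/
def AlgF (H : P2 → Prop) : Prop :=
  ∃ A : Code →. ℕ, Partrec A ∧ ∀ c : Code,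
    (∀ b ∈ A c, ∀ x y : ℤ, MvPolynomial.eval ![x, y] (toPoly c) = 0 → max |x| |y| ≤ (b : ℤ)) ∧
    (Irreducible (MvPolynomial.map (Int.castRingHom (AlgebraicClosure ℚ)) (toPoly c)) → H (toPoly c) →
      ∀ r a g : ℕ, Odd r → 3 ≤ r → 2 ^ r ≤ a → 600 * ((toPoly c).totalDegree + g) ≤ (r - 1) ^ 2 →
        Pool.Agent.H85.SF.AtInf (qra r a) (toPoly c) → Pool.Agent.H85.SF.GenusLE (toPoly c) g → (A c).Dom)

/-- search for a witness and a size -/
theorem findw {α β : Type*} [Primcodable α] [Primcodable β] {P : α → β → ℕ → Prop}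
    (h : SR fun p : (α × ℕ) × β => P p.1.1 p.2 p.1.2) {Phi : ℕ → ℕ} (hPhi : Primrec Phi) :
    ∃ A : α →. ℕ, Partrec A ∧ (∀ a, ∀ b ∈ A a, ∃ w Z, P a w Z ∧ b = Phi Z) ∧
      ∀ a w Z, P a w Z → (A a).Dom := by
  obtain ⟨A, hA, h1, h2⟩ := SR.find (P := fun (a : α) (Z : ℕ) => ∃ w : β, P a w Z)
    (SR.ex (P := fun (p : α × ℕ) (w : β) => P p.1 w p.2) h) hPhi
  refine ⟨A, hA, fun a b hb => ?_, fun a w Z hP => h2 a Z ⟨w, hP⟩⟩
  obtain ⟨Z, ⟨w, hw⟩, hb'⟩ := h1 a b hb
  exact ⟨w, Z, hw, hb'⟩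

private theorem primrec_pw {α : Type*} [Primcodable α] {f g : α → ℕ} (hf : Primrec f) (hg : Primrec g) :
    Primrec fun a => f a ^ g a := by
  have h1 : Primrec fun a => Nat.rec (motive := fun _ => ℕ) 1 (fun _ y => y * f a) (g a) := by
    refine Primrec.nat_rec' (α := α) (β := ℕ) (f := g) (g := fun _ => 1)
      (h := fun a p => p.2 * f a) hg (Primrec.const 1) ?_
    exact Primrec.nat_mul.comp (Primrec.snd.comp Primrec.snd) (hf.comp Primrec.fst)
  refine h1.of_eq fun a => ?_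
  induction g a with
  | zero => rfl
  | succ n ih => rw [pow_succ, ← ih]

private theorem primrec_odd {α : Type*} [Primcodable α] {f : α → ℕ} (hf : Primrec f) :
    PrimrecPred fun a => Odd (f a) := by
  have h1 : PrimrecPred fun a => f a % 2 = 1 :=
    PrimrecRel.comp Primrec.eq (Primrec.nat_mod.comp hf (Primrec.const 2)) (Primrec.const 1)
  exact h1.of_eq fun a => Nat.odd_iff.symm

/-- the conditions for the parameters -/
def Par (n r a g : ℕ) : Prop := Odd r ∧ 3 ≤ r ∧ 2 ^ r ≤ a ∧ 600 * (n + g) ≤ (r - 1) ^ 2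

private theorem primrec_par {α : Type*} [Primcodable α] {n r a g : α → ℕ} (hn : Primrec n) (hr : Primrec r)
    (ha : Primrec a) (hg : Primrec g) : PrimrecPred fun p => Par (n p) (r p) (a p) (g p) := by
  have h1 := primrec_odd hr
  have h2 : PrimrecPred fun p => 3 ≤ r p := PrimrecRel.comp Primrec.nat_le (Primrec.const 3) hr
  have h3 : PrimrecPred fun p => 2 ^ r p ≤ a p :=
    PrimrecRel.comp Primrec.nat_le (primrec_pw (Primrec.const 2) hr) ha
  have h4 : PrimrecPred fun p => 600 * (n p + g p) ≤ (r p - 1) ^ 2 :=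
    PrimrecRel.comp Primrec.nat_le (Primrec.nat_mul.comp (Primrec.const 600) (Primrec.nat_add.comp hn hg))
      (primrec_pw (Primrec.nat_sub.comp hr (Primrec.const 1)) (Primrec.const 2))
  exact h1.and (h2.and (h3.and h4))

theorem uc_qra {α : Type*} [Primcodable α] {r a : α → ℕ} (hr : Primrec r) (ha : Primrec a) :
    UC fun p => qra (r p) (a p) := by
  have h1 : UC fun p => (Polynomial.X : Polynomial ℤ) ^ r p := UC.X.pow hr
  have h2 : UC fun p => Polynomial.C ((a p : ℕ) : ℤ) * (Polynomial.X : Polynomial ℤ) ^ (r p - 1) :=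
    (UC.C (IC.nat ha)).mul (UC.X.pow (Primrec.nat_sub.comp hr (Primrec.const 1)))
  have h3 : UC fun _ : α => (1 : Polynomial ℤ) := ⟨fun _ => [(1, 0, 0, 0)], Primrec.const _, fun _ => uni_one⟩
  exact (h1.sub h2).sub h3

/-- THE ALGORITHM WITH INPUT `F` ALONE. `P0`: the certificates which do not depend on `q`; `H`: an additional hypothesis
(for example `OnePlace`), under which there is always a certificate. -/
theorem dov {H : P2 → Prop} {P0 : P2 → ℕ → Prop} {Phi : ℕ → ℕ} (hPhi : Primrec Phi)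
    (h0 : SR fun p : Code × ℕ => P0 (toPoly p.1) p.2)
    (h0s : ∀ (F : P2) (Z : ℕ), P0 F Z → ∀ x y : ℤ, MvPolynomial.eval ![x, y] F = 0 → max |x| |y| ≤ (Phi Z : ℤ))
    (hc : SR fun p : (Code × ℕ) × ℕ × ℕ × ℕ => ∃ d, Cer (toPoly p.1.1) (qra p.2.1 p.2.2.1)
      (300 * ((toPoly p.1.1).totalDegree + p.2.2.2)) p.1.2 d)
    (hs : ∀ (F : P2) (q : Polynomial ℤ) (κ Z B : ℕ) (d : Dt), Cer F q κ Z d → Pool.Agent.H85.SF.Special q B κ → B ≤ Z →
      ∀ x y : ℤ, MvPolynomial.eval ![x, y] F = 0 → max |x| |y| ≤ (Phi Z : ℤ))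
    (hsp : ∀ r a κ : ℕ, Odd r → 3 ≤ r → 2 ^ r ≤ a → 2 * κ ≤ (r - 1) ^ 2 →
      Pool.Agent.H85.SF.Special (qra r a) (2 * a) κ)
    (hcomp : ∀ (F : P2) (q : Polynomial ℤ) (B g : ℕ),
      Irreducible (MvPolynomial.map (Int.castRingHom (AlgebraicClosure ℚ)) F) → H F →
      Pool.Agent.H85.SF.Special q B (300 * (F.totalDegree + g)) → Pool.Agent.H85.SF.AtInf q F →
      Pool.Agent.H85.SF.GenusLE F g →
      (∃ Z, P0 F Z) ∨ ∃ (Z : ℕ) (d : Dt), Cer F q (300 * (F.totalDegree + g)) Z d) : AlgF H := by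
  obtain ⟨A, hA, h1, h2⟩ := findw (α := Code) (β := ℕ × ℕ × ℕ)
    (P := fun c w Z => P0 (toPoly c) Z ∨ (Par (toPoly c).totalDegree w.1 w.2.1 w.2.2 ∧ 2 * w.2.1 ≤ Z ∧
      ∃ d, Cer (toPoly c) (qra w.1 w.2.1) (300 * ((toPoly c).totalDegree + w.2.2)) Z d)) (by
      have i1 : Primrec fun p : (Code × ℕ) × ℕ × ℕ × ℕ => ((p.1.1, p.1.2) : Code × ℕ) :=
        Primrec.pair (Primrec.fst.comp Primrec.fst) (Primrec.snd.comp Primrec.fst)
      have j1 : SR fun p : (Code × ℕ) × ℕ × ℕ × ℕ => P0 (toPoly p.1.1) p.1.2 := SR.comp h0 i1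
      have k1 : Primrec fun p : (Code × ℕ) × ℕ × ℕ × ℕ => (toPoly p.1.1).totalDegree :=
        (PC.code (Primrec.fst.comp Primrec.fst)).totalDegree
      have k2 : Primrec fun p : (Code × ℕ) × ℕ × ℕ × ℕ => p.2.1 := Primrec.fst.comp Primrec.snd
      have k3 : Primrec fun p : (Code × ℕ) × ℕ × ℕ × ℕ => p.2.2.1 :=
        Primrec.fst.comp (Primrec.snd.comp Primrec.snd)
      have k4 : Primrec fun p : (Code × ℕ) × ℕ × ℕ × ℕ => p.2.2.2 :=
        Primrec.snd.comp (Primrec.snd.comp Primrec.snd)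
      have j2 : SR fun p : (Code × ℕ) × ℕ × ℕ × ℕ => Par (toPoly p.1.1).totalDegree p.2.1 p.2.2.1 p.2.2.2 :=
        SR.of_prim (primrec_par k1 k2 k3 k4)
      have j3 : SR fun p : (Code × ℕ) × ℕ × ℕ × ℕ => 2 * p.2.2.1 ≤ p.1.2 :=
        SR.of_prim (PrimrecRel.comp Primrec.nat_le (Primrec.nat_mul.comp (Primrec.const 2) k3)
          (Primrec.snd.comp Primrec.fst))
      exact j1.or (j2.and (j3.and hc))) hPhi
  refine ⟨A, hA, fun c => ⟨fun b hb x y hxy => ?_, fun hirr hH r a g hr hr3 ha hn hat hg => ?_⟩⟩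
  · obtain ⟨⟨r, a, g⟩, Z, hP, rfl⟩ := h1 c b hb
    rcases hP with hP | ⟨⟨hr, hr3, ha, hn⟩, hZ, d, hd⟩
    · exact h0s _ Z hP x y hxy
    · refine hs _ _ _ Z (2 * a) d hd (hsp r a _ hr hr3 ha ?_) hZ x y hxy
      have h3 : 600 * ((toPoly c).totalDegree + g) ≤ (r - 1) ^ 2 := hn
      show 2 * (300 * ((toPoly c).totalDegree + g)) ≤ (r - 1) ^ 2
      omega
  · have hS : Pool.Agent.H85.SF.Special (qra r a) (2 * a) (300 * ((toPoly c).totalDegree + g)) :=
      hsp r a _ hr hr3 ha (by omega)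
    rcases hcomp (toPoly c) (qra r a) (2 * a) g hirr hH hS hat hg with ⟨Z, hZ⟩ | ⟨Z, d, hd⟩
    · exact h2 c (r, a, g) Z (Or.inl hZ)
    · exact h2 c (r, a, g) (max Z (2 * a)) (Or.inr ⟨⟨hr, hr3, ha, hn⟩, le_max_right _ _, d,
        cer_mono (le_max_left _ _) hd⟩)

end Pool.Agent.H98.SFA
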