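import Pool.Agent.H98.SFA.Fin3
import Pool.Agent.H69.SFA.Cr0
import Pool.Agent.H46.SF2.Cmg

/-!
# [H98 SFA Alg] THEOREM SF, clause (4): the algorithm with input `F` alone
-/

namespace Pool.Agent.H98.SFA

open Pool.Agent.H8.Siegel Pool.Agent.H69.AL Pool.Agent.H98.AL Pool.Agent.H85.SA
open Pool.Agent.H69.SFA

theorem algG : Pool.Agent.H85.SA.AlgG :=
  algG_fin (P00 := P00) (sr_p00 (PC.code Primrec.fst) Primrec.snd) (fun _ _ => p00_sound) (fun _ => p00_ex)
    (fun _ hF h => Pool.Agent.H46.SF2.completeG hF h)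

end Pool.Agent.H98.SFA
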