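import Pool.Agent.H98.SFA.Alg
import Pool.Agent.H4.SFM.Mrg
import Pool.Agent.H85.SF.Fin

/-!
# MP_821da1_nt, Q1 (DRAFT of version 2 of SpecialFields): integer points, one algorithm

1. One partial recursive function of the list of the terms of `F ∈ ℤ[x,y]`; every output bounds all integer zeros of `F`; it is
   defined for every absolutely irreducible `F` which has two places at infinity over `ℚ`, or all of whose real points at infinity
   carry a zero of a polynomial `q`, special for `300 (deg F + g)`, genus at most `g` (`q`, `B`, `g` are not given to the algorithm).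
2. For each `n` there is one `C` such that no special `p` (monic, irreducible, all real zeros very close to rational numbers) is
   exceptional: all integer points of these curves satisfy `max(|x|,|y|) ≤ (B H)^C`.
3. `X^r - a X^(r-1) - 1` is special for odd `r ≥ 3`, `a ≥ 2^r`, `2 κ ≤ (r-1)^2`.
4. The radicals `(a/b)^(1/r)`: not exceptional if `a/b` is close to `1`, and few are exceptional.

`Exceptional q n g C T`: some polynomial `F ∈ ℤ[x,y]` of total degree at most `n`, irreducible over `ℚ`, of genus at most `g`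
(`GenusLE`), all of whose points at infinity over number fields with a real embedding carry a zero of `q` (`AtInf`), with
coefficients of absolute value at most `H`, `H ≥ 2`, has an integer point with `max(|x|,|y|) > (T H)^C`.
`OnePlace F`: the function field of the curve `F = 0` over `ℚ` has at most one place at infinity.
-/

namespace Pool.Agent.H98.SFA.Draft2

open Pool.Agent.H4.SFM Pool.Agent.H85.SF

theorem result :
    (∃ A : List (ℕ × ℕ × ℕ × ℕ) →. ℕ, Partrec A ∧ ∀ (c : List (ℕ × ℕ × ℕ × ℕ)) (F : MvPolynomial (Fin 2) ℤ),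
      F = (c.map fun t => MvPolynomial.C ((t.1 : ℤ) - (t.2.1 : ℤ)) * MvPolynomial.X 0 ^ t.2.2.1 *
          MvPolynomial.X 1 ^ t.2.2.2).sum →
        (∀ b ∈ A c, ∀ x y : ℤ, MvPolynomial.eval ![x, y] F = 0 → max |x| |y| ≤ (b : ℤ)) ∧
        (Irreducible (MvPolynomial.map (Int.castRingHom (AlgebraicClosure ℚ)) F) →
          (¬ Pool.Agent.H85.SA.OnePlace F ∨ ∃ (q : Polynomial ℤ) (B g : ℕ),
            Special q B (300 * (F.totalDegree + g)) ∧ AtInf q F ∧ GenusLE F g) → (A c).Dom)) ∧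
    (∀ n : ℕ, ∃ C : ℕ, ∀ (g B : ℕ) (p : Polynomial ℤ), Special p B (300 * (n + g)) → ¬ Exceptional p n g C B) ∧
    (∀ r a κ : ℕ, Odd r → 3 ≤ r → 2 ^ r ≤ a → 2 * κ ≤ (r - 1) ^ 2 →
      Special (Polynomial.X ^ r - Polynomial.C (a : ℤ) * Polynomial.X ^ (r - 1) - 1) (2 * a) κ) ∧
    ∀ (r n : ℕ) (δ : ℝ), 3 ≤ r → 3 ≤ n → 0 < δ → ∃ C : ℕ, 1 ≤ C ∧ ∀ g : ℕ,
      (δ < 1 - 2 / r → ∀ a b : ℕ, Nat.Coprime a b → a ≠ b → C ≤ b → |(a : ℝ) - b| ≤ (b : ℝ) ^ δ →
        ¬ Exceptional (rad r a b) n g C b) ∧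
      (5 ≤ r → δ < 1 - 9 / (2 * r) →
        (∀ X b : ℕ, C ≤ X → 1 ≤ b → {a : ℕ | X ≤ a ∧ (a : ℝ) ≤ X + (X : ℝ) ^ δ ∧
          Exceptional (rad r a b) n g C X}.Subsingleton) ∧
        ∀ T b : ℕ, 1 ≤ T → 1 ≤ b →
          ({a : ℕ | 1 ≤ a ∧ a ≤ T ∧ Exceptional (rad r a b) n g C T}.ncard : ℝ) ≤ C * (T : ℝ) ^ (1 - δ)) := by
  obtain ⟨A, hA, h⟩ := Pool.Agent.H98.SFA.algG
  refine ⟨⟨A, hA, fun c F hF => ?_⟩, merge sf⟩
  subst hF
  exact h c

end Pool.Agent.H98.SFA.Draft2
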