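import Pool.Agent.H85.SA.Snd
import Pool.Agent.H8.SiegelComp

/-!
# [H98 SFA Phi] THEOREM SF, clause (4), chapter K3: the bound `Phi` is primitive recursive
-/

namespace Pool.Agent.H98.SFA

open Pool.Agent.H8.Siegel Pool.Agent.H77.SF Pool.Agent.H85.SA

theorem primrec_E0 : Primrec fun Z : ℕ => E0 Z Z Z Z := by
  unfold E0 c1 c3 N0 kk kp
  repeat' first
    | exact Primrec.id
    | exact Primrec.const _
    | refine Primrec.nat_add.comp ?_ ?_
    | refine Primrec.nat_mul.comp ?_ ?_
    | refine primrec_pow.comp ?_ ?_

theorem primrec_TT : Primrec TT := by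
  unfold TT
  repeat' first
    | exact Primrec.id
    | exact Primrec.const _
    | refine Primrec.nat_add.comp ?_ ?_
    | refine Primrec.nat_mul.comp ?_ ?_
    | refine primrec_pow.comp ?_ ?_

theorem primrec_Phi : Primrec Phi := by
  have h1 := primrec_E0
  have h2 := primrec_TT
  unfold Phi
  repeat' first
    | exact h1
    | exact h2
    | exact Primrec.id
    | exact Primrec.const _
    | refine Primrec.nat_add.comp ?_ ?_
    | refine Primrec.nat_mul.comp ?_ ?_
    | refine primrec_pow.comp ?_ ?_

end Pool.Agent.H98.SFA
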