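import Pool.Agent.H98.SFA.Dov
import Pool.Agent.H98.SFA.Phi
import Pool.Agent.H69.SFA.Cer
import Pool.Agent.H85.SA.Spa

/-!
# [H98 SFA Fin] THEOREM SF, clause (4), chapter K3: the algorithm with input `F` alone

`AlgG`: there is a partial recursive function of the code of `F`, every value of which is a bound for all integer zeros of `F`,
and which is defined if `F` is absolutely irreducible and either has two places at infinity or satisfies the hypotheses of
THEOREM SF for some special polynomial `q`. The search runs over `q` (with its certificate `Spc`), `κ` and the certificates.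
`P0`: the certificates which do not depend on `q` (types 0 and R), with the bound `Ph`.
-/

namespace Pool.Agent.H98.SFA

open Pool.Agent.H8.Siegel Pool.Agent.H69.AL Pool.Agent.H98.AL Pool.Agent.H85.SA
open Pool.Agent.H69.SFA

/-- THE ALGORITHM WITH INPUT `F` ALONE -/
def AlgG : Prop :=
  ∃ A : Code →. ℕ, Partrec A ∧
    (∀ c, ∀ b ∈ A c, ∀ x y : ℤ, MvPolynomial.eval ![x, y] (toPoly c) = 0 → max |x| |y| ≤ (b : ℤ)) ∧
    ∀ c, Irreducible (MvPolynomial.map (Int.castRingHom (AlgebraicClosure ℚ)) (toPoly c)) →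
      ((∃ (q : Polynomial ℤ) (B g : ℕ),
          Pool.Agent.H85.SF.Special q B (300 * ((toPoly c).totalDegree + g)) ∧
          Pool.Agent.H85.SF.AtInf q (toPoly c) ∧ Pool.Agent.H85.SF.GenusLE (toPoly c) g) ∨
        ¬ OnePlace (toPoly c)) → (A c).Dom

theorem algG_of {P0 : P2 → ℕ → Prop} {Ph : ℕ → ℕ} (hPh : Primrec Ph)
    (h0 : SR fun p : Code × ℕ => P0 (toPoly p.1) p.2)
    (h0s : ∀ (F : P2) (Z : ℕ), P0 F Z → ∀ x y : ℤ, MvPolynomial.eval ![x, y] F = 0 → max |x| |y| ≤ (Ph Z : ℤ))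
    (h1s : ∀ Z, Phi Z ≤ Ph Z)
    (hspc : SR fun p : (Code × ℕ) × Code × ℕ => Spc (uni p.2.1) p.2.2 p.1.2)
    (hR : ∀ F : P2, Irreducible (MvPolynomial.map (Int.castRingHom (AlgebraicClosure ℚ)) F) → ¬ OnePlace F →
      ∃ Z, P0 F Z)
    (hcomp : ∀ (F : P2) (q : Polynomial ℤ) (B g : ℕ),
      Irreducible (MvPolynomial.map (Int.castRingHom (AlgebraicClosure ℚ)) F) → OnePlace F →
      Pool.Agent.H85.SF.Special q B (300 * (F.totalDegree + g)) → Pool.Agent.H85.SF.AtInf q F →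
      Pool.Agent.H85.SF.GenusLE F g →
      (∃ Z, P0 F Z) ∨ ∃ (Z κ : ℕ) (d : Dt), κ + q.natDegree = 300 * (F.totalDegree + g) ∧
        3 ≤ q.natDegree ∧ Cer F q κ Z d) : AlgG := by
  obtain ⟨A, hA, h1, h2⟩ := findw (α := Code) (β := Code × ℕ)
    (P := fun c w Z => P0 (toPoly c) Z ∨ (Spc (uni w.1) w.2 Z ∧
      ∃ d, Cer (toPoly c) (uni w.1) w.2 Z d)) (by
      have i1 : Primrec fun p : (Code × ℕ) × Code × ℕ => ((p.1.1, p.1.2) : Code × ℕ) :=
        Primrec.pair (Primrec.fst.comp Primrec.fst) (Primrec.snd.comp Primrec.fst)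
      have j1 : SR fun p : (Code × ℕ) × Code × ℕ => P0 (toPoly p.1.1) p.1.2 := SR.comp h0 i1
      have k0 : PC fun p : (Code × ℕ) × Code × ℕ => toPoly p.1.1 := PC.code (Primrec.fst.comp Primrec.fst)
      have k1 : UC fun p : (Code × ℕ) × Code × ℕ => uni p.2.1 := UC.code (Primrec.fst.comp Primrec.snd)
      have j3 := sr_cer k0 k1 (κ := fun p : (Code × ℕ) × Code × ℕ => p.2.2)
        (Z := fun p : (Code × ℕ) × Code × ℕ => p.1.2) (Primrec.snd.comp Primrec.snd)
        (Primrec.snd.comp Primrec.fst)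
      exact j1.or (hspc.and j3)) hPh
  refine ⟨A, hA, fun c b hb x y hxy => ?_, fun c hirr hc => ?_⟩
  · obtain ⟨⟨q, κ⟩, Z, hP, rfl⟩ := h1 c b hb
    rcases hP with hP | ⟨hS, d, hd⟩
    · exact h0s _ Z hP x y hxy
    · obtain ⟨B, _, hB, hSp⟩ := spc_sound hS
      refine (sound1R hd hSp hB hxy).trans ?_
      exact_mod_cast h1s Z
  · by_cases hO : OnePlace (toPoly c)
    · rcases hc with ⟨q, B, g, hS, hat, hg⟩ | hc
      · rcases hcomp (toPoly c) q B g hirr hO hS hat hg with ⟨Z, hZ⟩ | ⟨Z, κ, d, hκ, hr, hd⟩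
        · exact h2 c ([], 0) Z (Or.inl hZ)
        · rw [← hκ] at hS
          obtain ⟨Z', hZ'⟩ := spc_ex hS hr
          obtain ⟨q', rfl⟩ := exists_uni q
          exact h2 c (q', κ) (max Z Z') (Or.inr ⟨spc_mono hZ' (le_max_right _ _), d,
            cer_mono (le_max_left _ _) hd⟩)
      · exact absurd hO hc
    · obtain ⟨Z, hZ⟩ := hR (toPoly c) hirr hO
      exact h2 c ([], 0) Z (Or.inl hZ)

end Pool.Agent.H98.SFA
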