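import Pool.Agent.H98.SFA.Fin
import Pool.Agent.H37.SFA.Cr2
import Pool.Agent.H65.RG.Snd
import Pool.Agent.H80.SA.Sn0

/-!
# [H98 SFA Fin2] THEOREM SF, clause (4), chapter K3: `algG_of` with the certificates of type 0 and of type R
-/

namespace Pool.Agent.H98.SFA

open Pool.Agent.H8.Siegel Pool.Agent.H69.AL Pool.Agent.H98.AL Pool.Agent.H85.SA
open Pool.Agent.H69.SFA Pool.Agent.H65.RG

theorem primrec_Ph2 : Primrec Ph2 := by
  unfold Ph2 Z2' K2
  repeat' first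
    | exact Primrec.id
    | exact Primrec.const _
    | refine Primrec.nat_add.comp ?_ ?_
    | refine Primrec.nat_mul.comp ?_ ?_
    | refine primrec_pow.comp ?_ ?_

theorem algG_of2 {P00 : P2 → ℕ → Prop}
    (h00 : SR fun p : Code × ℕ => P00 (toPoly p.1) p.2)
    (h00s : ∀ (F : P2) (Z : ℕ), P00 F Z → Cer0 F Z)
    (h00c : ∀ F : P2, (∃ Z, Cer0 F Z) → ∃ Z, P00 F Z)
    (hspc : SR fun p : (Code × ℕ) × Code × ℕ => Spc (uni p.2.1) p.2.2 p.1.2)
    (hR : ∀ F : P2, Irreducible (MvPolynomial.map (Int.castRingHom (AlgebraicClosure ℚ)) F) → ¬ OnePlace F →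
      ∃ (Z : ℕ) (d : Dr), Cer2 F Z d)
    (hcomp : ∀ (F : P2) (q : Polynomial ℤ) (B g : ℕ),
      Irreducible (MvPolynomial.map (Int.castRingHom (AlgebraicClosure ℚ)) F) → OnePlace F →
      Pool.Agent.H85.SF.Special q B (300 * (F.totalDegree + g)) → Pool.Agent.H85.SF.AtInf q F →
      Pool.Agent.H85.SF.GenusLE F g →
      (∃ Z, Cer0 F Z) ∨ ∃ (Z κ : ℕ) (d : Dt), κ + q.natDegree = 300 * (F.totalDegree + g) ∧
        3 ≤ q.natDegree ∧ Cer F q κ Z d) : AlgG := by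
  refine algG_of (P0 := fun F Z => P00 F Z ∨ ∃ d, Cer2 F Z d) (Ph := fun Z => Phi Z + Ph2 Z)
    (Primrec.nat_add.comp primrec_Phi primrec_Ph2) ?_ ?_ (fun Z => Nat.le_add_right _ _) hspc ?_ ?_
  · exact h00.or (Pool.Agent.H37.SFA.sr_cer2 (PC.code Primrec.fst) Primrec.snd)
  · rintro F Z (h | ⟨d, hd⟩) x y hxy
    · have h1 := Pool.Agent.H80.SA.sound0 (h00s F Z h) hxy
      refine h1.trans ?_
      push_cast
      exact le_add_of_nonneg_right (by positivity)
    · have h1 := cer2_sound hd hxy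
      refine h1.trans ?_
      push_cast
      exact le_add_of_nonneg_left (by positivity)
  · intro F hirr hO
    obtain ⟨Z, d, hd⟩ := hR F hirr hO
    exact ⟨Z, Or.inr ⟨d, hd⟩⟩
  · intro F q B g hirr hO hS hat hg
    rcases hcomp F q B g hirr hO hS hat hg with h | h
    · obtain ⟨Z, hZ⟩ := h00c F h
      exact Or.inl ⟨Z, Or.inl hZ⟩
    · exact Or.inr h

end Pool.Agent.H98.SFA
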