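import Pool.Agent.H98.SFA.Fin2
import Pool.Agent.H85.SA.Stg
import Pool.Agent.H69.SFA.Sps

/-!
# [H98 SFA Fin3] THEOREM SF, clause (4), chapter K3: `AlgG` (H85/SA/Stg) from completeness

`P00`: the recursively enumerable form of the certificates of type 0.
-/

namespace Pool.Agent.H98.SFA

open Pool.Agent.H8.Siegel Pool.Agent.H69.AL Pool.Agent.H98.AL Pool.Agent.H85.SA
open Pool.Agent.H69.SFA Pool.Agent.H65.RG

theorem algG_fin {P00 : P2 → ℕ → Prop}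
    (h00 : SR fun p : Code × ℕ => P00 (toPoly p.1) p.2)
    (h00s : ∀ (F : P2) (Z : ℕ), P00 F Z → Cer0 F Z)
    (h00c : ∀ F : P2, (∃ Z, Cer0 F Z) → ∃ Z, P00 F Z)
    (hcomp : ∀ F : P2, Irreducible (MvPolynomial.map (Int.castRingHom (AlgebraicClosure ℚ)) F) →
      (¬ OnePlace F ∨ ∃ (q : Polynomial ℤ) (B g : ℕ),
        Pool.Agent.H85.SF.Special q B (300 * (F.totalDegree + g)) ∧
          Pool.Agent.H85.SF.AtInf q F ∧ Pool.Agent.H85.SF.GenusLE F g) → ∃ Z, CerG F Z) :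
    Pool.Agent.H85.SA.AlgG := by
  obtain ⟨A, hA, h1, h2⟩ := findw (α := Code) (β := Code × ℕ)
    (P := fun c w Z => P00 (toPoly c) Z ∨ (∃ d, Cer2 (toPoly c) Z d) ∨ (Spc (uni w.1) w.2 Z ∧
      ∃ d, Cer (toPoly c) (uni w.1) w.2 Z d)) (by
      have i1 : Primrec fun p : (Code × ℕ) × Code × ℕ => ((p.1.1, p.1.2) : Code × ℕ) :=
        Primrec.pair (Primrec.fst.comp Primrec.fst) (Primrec.snd.comp Primrec.fst)
      have j1 : SR fun p : (Code × ℕ) × Code × ℕ => P00 (toPoly p.1.1) p.1.2 := SR.comp h00 i1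
      have k0 : PC fun p : (Code × ℕ) × Code × ℕ => toPoly p.1.1 := PC.code (Primrec.fst.comp Primrec.fst)
      have k1 : UC fun p : (Code × ℕ) × Code × ℕ => uni p.2.1 := UC.code (Primrec.fst.comp Primrec.snd)
      have k2 : Primrec fun p : (Code × ℕ) × Code × ℕ => p.2.2 := Primrec.snd.comp Primrec.snd
      have k3 : Primrec fun p : (Code × ℕ) × Code × ℕ => p.1.2 := Primrec.snd.comp Primrec.fst
      have j2 := Pool.Agent.H37.SFA.sr_cer2 k0 k3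
      have j3 := sr_cer k0 k1 k2 k3
      have j4 := sr_spc k1 k2 k3
      exact j1.or (j2.or (j4.and j3))) (Primrec.nat_add.comp primrec_Phi primrec_Ph2)
  refine ⟨A, hA, fun c => ⟨fun b hb x y hxy => ?_, fun hirr hc => ?_⟩⟩
  · obtain ⟨⟨q, κ⟩, Z, hP, rfl⟩ := h1 c b hb
    have e1 : (Phi Z : ℤ) ≤ ((Phi Z + Ph2 Z : ℕ) : ℤ) := by exact_mod_cast Nat.le_add_right _ _
    have e2 : (Ph2 Z : ℤ) ≤ ((Phi Z + Ph2 Z : ℕ) : ℤ) := by exact_mod_cast Nat.le_add_left _ _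
    rcases hP with hP | ⟨d, hd⟩ | ⟨hS, d, hd⟩
    · exact (Pool.Agent.H80.SA.sound0 (h00s _ Z hP) hxy).trans e1
    · exact (cer2_sound hd hxy).trans e2
    · obtain ⟨B, _, hB, hSp⟩ := spc_sound hS
      exact (sound1R hd hSp hB hxy).trans e1
  · obtain ⟨Z, h3 | h3 | ⟨q, κ, hS, hd⟩⟩ := hcomp (toPoly c) hirr hc
    · obtain ⟨Z', hZ'⟩ := h00c _ ⟨Z, h3⟩
      exact h2 c ([], 0) Z' (Or.inl hZ')
    · exact h2 c ([], 0) Z (Or.inr (Or.inl h3))
    · obtain ⟨q', rfl⟩ := exists_uni q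
      exact h2 c (q', κ) Z (Or.inr (Or.inr ⟨hS, hd⟩))

end Pool.Agent.H98.SFA
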